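import Pool.Agent.MP_94a669_co.Main

/-! Sharp count of the copies of an antidirected tree in a digraph with `n` vertices and `m` arcs. -/

namespace Pool.Agent.MP_94a669_co.KeptSharpCount

/-- With `m = q n + r`, `0 ≤ r < n`, a loopless digraph with `n` vertices and `m` arcs has at least
`(n - r) q (q-1) ⋯ (q-k+1) + r (q+1) q ⋯ (q-k+2)` labelled copies of every antidirected tree with
`k` arcs. -/
theorem result :
    ∀ (k : ℕ) (V : Type) [Fintype V] [Nonempty V] (D : Digraph V),
      (∀ v, ¬ D.Adj v v) →
      ∀ (A : Fin (k + 1) → Fin (k + 1) → Prop),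
        (SimpleGraph.fromRel A).IsTree →
        (∀ a b c, A a b → ¬ A b c) →
        ∀ n m : ℕ, n = Fintype.card V → m = Nat.card {p : V × V // D.Adj p.1 p.2} →
          (n - m % n) * (m / n).descFactorial k + (m % n) * (m / n + 1).descFactorial k ≤
            Nat.card {f : Fin (k + 1) → V // Function.Injective f ∧
              ∀ a b, A a b → D.Adj (f a) (f b)} := by
  intro k V _ _ D hD A hT hA n m hn hm
  subst hn hm
  exact Pool.Agent.MP_94a669_co.sharp_count k V D hD A hT hA (Nat.mod_lt _ Fintype.card_pos).le
    (Nat.div_add_mod' _ _).le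

end Pool.Agent.MP_94a669_co.KeptSharpCount
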