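import Pool.Agent.MP_94a669_co.Count

/-! The sharp counting theorem, and two corollaries (real form, existence). -/

namespace Pool.Agent.MP_94a669_co

open Finset Nat

theorem sharp_count (k : ℕ) (V : Type) [Fintype V] (D : Digraph V) (hD : ∀ v, ¬ D.Adj v v)
    (A : Fin (k + 1) → Fin (k + 1) → Prop) (hT : (SimpleGraph.fromRel A).IsTree)
    (hA : ∀ a b c, A a b → ¬ A b c) {q r : ℕ} (hr : r ≤ Fintype.card V)
    (hq : q * Fintype.card V + r ≤ Nat.card {p : V × V // D.Adj p.1 p.2}) :
    (Fintype.card V - r) * q.descFactorial k + r * (q + 1).descFactorial k ≤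
      Nat.card {f : Fin (k + 1) → V // Function.Injective f ∧
        ∀ a b, A a b → D.Adj (f a) (f b)} := by
  classical
  rcases k with _ | k
  · simp only [descFactorial_zero, mul_one, Nat.sub_add_cancel hr]
    rw [← Nat.card_eq_fintype_card]
    refine Nat.card_le_card_of_injective (fun v => ⟨fun _ => v, fun a b _ => ?_, fun a b h => ?_⟩)
      fun v w h => congrFun (congrArg Subtype.val h) 0
    · omega
    · obtain rfl : a = b := by omega
      exact absurd h (hA a a a h)
  rcases Nat.eq_zero_or_pos (Fintype.card V) with h0 | hn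
  · obtain rfl : r = 0 := by omega
    simp [h0]
  obtain ⟨t, τ, p, la, h1, h2, h3⟩ := exists_enc A hT hA k (by simp)
  have hm : Nat.card {p : V × V // D.Adj p.1 p.2} ≤
      (univ.filter fun e : V × V => ad D.Adj τ e.1 e.2).card := by
    rw [← Fintype.card_subtype, ← Nat.card_eq_fintype_card]
    cases τ
    · exact Nat.card_le_card_of_injective (fun e => ⟨e.1.swap, e.2⟩)
        fun e e' h => Subtype.ext (Prod.swap_injective (congrArg Subtype.val h))
    · exact le_rfl
  have h := main_count hD (nodup_toList (univ : Finset V)) (by simp) t τ p la (by rw [h2, h1])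
    (univ.filter fun f : Fin (k + 1 + 1) → V => Function.Injective f ∧
      ∀ a b, A a b → D.Adj (f a) (f b))
    (fun v u l g1 g2 g3 => by
      obtain ⟨f, f1, f2⟩ := h3 V D.Adj v u l g1 g2 g3
      exact ⟨f, mem_filter.2 ⟨mem_univ _, f1⟩, f2⟩)
    (univ.filter fun e : V × V => ad D.Adj τ e.1 e.2) (fun e he => (mem_filter.1 he).2)
    (q := q) (r := r) (by rw [length_toList, Finset.card_univ]; exact hq.trans hm)
    (by rw [length_toList, Finset.card_univ]; exact hn)
  rw [length_toList, Finset.card_univ, ← Fintype.card_subtype, h1] at h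
  rw [Nat.card_eq_fintype_card]
  refine le_trans (le_of_eq ?_) h
  obtain ⟨s, hs⟩ : ∃ s, Fintype.card V = s + r := ⟨_, (Nat.sub_add_cancel hr).symm⟩
  rw [hs, Nat.add_sub_cancel, descFactorial_eq_factorial_mul_choose,
    descFactorial_eq_factorial_mul_choose, Nat.choose_succ_succ]
  ring

theorem prod_le_interp (q : ℕ) {θ : ℝ} (h0 : 0 ≤ θ) (h1 : θ ≤ 1) (k : ℕ) (hk : k ≤ q + 1) :
    ∏ i ∈ range k, ((q : ℝ) + θ - i) ≤
      (1 - θ) * q.descFactorial k + θ * (q + 1).descFactorial k := by
  induction k with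
  | zero => simp
  | succ k ih =>
    have hkq : k ≤ q := by omega
    have e1 : (k : ℝ) ≤ q := by exact_mod_cast hkq
    have e2 : (q.descFactorial k : ℝ) ≤ (q + 1).descFactorial k := by
      exact_mod_cast descFactorial_le k (Nat.le_succ q)
    rw [prod_range_succ, descFactorial_succ, descFactorial_succ, Nat.cast_mul, Nat.cast_mul,
      Nat.cast_sub hkq, Nat.cast_sub (by omega)]
    refine (mul_le_mul_of_nonneg_right (ih (by omega)) (by linarith)).trans ?_
    have := mul_nonneg (mul_nonneg h0 (sub_nonneg.2 h1)) (sub_nonneg.2 e2)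
    push_cast
    nlinarith

/-- The real form `n d (d - 1) ⋯ (d - k + 1)` with `d = m / n ≥ k - 1`. -/
theorem real_count (k : ℕ) (V : Type) [Fintype V] [Nonempty V] (D : Digraph V)
    (hD : ∀ v, ¬ D.Adj v v) (A : Fin (k + 1) → Fin (k + 1) → Prop)
    (hT : (SimpleGraph.fromRel A).IsTree) (hA : ∀ a b c, A a b → ¬ A b c)
    (hm : (k - 1) * Fintype.card V ≤ Nat.card {p : V × V // D.Adj p.1 p.2}) :
    (Fintype.card V : ℝ) * ∏ i ∈ range k,
        ((Nat.card {p : V × V // D.Adj p.1 p.2} : ℝ) / Fintype.card V - i) ≤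
      Nat.card {f : Fin (k + 1) → V // Function.Injective f ∧
        ∀ a b, A a b → D.Adj (f a) (f b)} := by
  have hn : 0 < Fintype.card V := Fintype.card_pos
  have h := sharp_count k V D hD A hT hA (Nat.mod_lt (Nat.card {p : V × V // D.Adj p.1 p.2}) hn).le
    (Nat.div_add_mod' _ _).le
  generalize Nat.card {p : V × V // D.Adj p.1 p.2} = m at *
  generalize Fintype.card V = n at *
  have hn' : (0 : ℝ) < n := by exact_mod_cast hn
  have hr := Nat.mod_lt m hn
  have hq : k - 1 ≤ m / n := (Nat.le_div_iff_mul_le hn).2 hm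
  have e : (m : ℝ) / n = (m / n : ℕ) + ((m % n : ℕ) : ℝ) / n := by
    have : (m : ℝ) = (m / n : ℕ) * n + (m % n : ℕ) := by exact_mod_cast (Nat.div_add_mod' m n).symm
    field_simp
    linarith
  have h2 := prod_le_interp (m / n) (θ := ((m % n : ℕ) : ℝ) / n) (by positivity)
    ((div_le_one hn').2 (by exact_mod_cast hr.le)) k (by omega)
  rw [e]
  refine (mul_le_mul_of_nonneg_left h2 hn'.le).trans (le_trans (le_of_eq ?_) (Nat.cast_le.2 h))
  push_cast [Nat.cast_sub hr.le]
  field_simp

end Pool.Agent.MP_94a669_co
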